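import Pool.Agent.Helper87.BVSPWild

/-!
# A wild tensor of minimal border rank whose border VSP is a single point

Problem MP_df8da5_ag asks whether, for tensors of minimal border rank, wildness is equivalent to
positive dimensionality of the border variety of sums of powers.  The theorem below gives a
concise `6 × 6 × 6` tensor of border rank `6` which is wild, although its border VSP consists of
exactly one ideal.

The tensor is the structure tensor of the six dimensional space of matrices
`x • 1 + [[0, X], [0, 0]]` acting on `ℂ^3 ⊕ ℂ^3`, where `X` runs over the five dimensional space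
of `3 × 3` matrices with zero diagonal and zero sum of entries.
-/

open Pool.Agent.Helper87.BVSP

namespace Pool.Agent.Results.MP_df8da5_ag.WildSinglePoint

/-- There is a concise tensor `F ∈ ℂ^6 ⊗ ℂ^6 ⊗ ℂ^6` of minimal border rank `6` which is wild and
whose border variety of sums of powers is a single point (so has dimension `0`). -/
theorem result : ∃ F : Cox 6, F ∈ piece 6 d111 ∧ Concise F ∧ borderRank F = 6 ∧ Wild F ∧
    ∃ J : Ideal (Cox 6), VSP F (borderRank F) = {J} := by
  refine ⟨F₀, F₀_mem, concise_F₀, borderRank_eq, wild_F₀, ?_⟩
  rw [borderRank_eq]
  exact VSP_eq

end Pool.Agent.Results.MP_df8da5_ag.WildSinglePoint
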